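import Pool.Agent.Helper57.HS.GoalsG

/-! # HS-G LIMC: limits of `C²` functions -/

open Complex Metric Set Filter Topology MeasureTheory
open scoped ContDiff ComplexConjugate ComplexOrder Manifold Matrix

namespace Pool.Agent.Helper38.HS.LIMC

open Pool.Agent.Helper95.Lin Pool.Agent.Helper16.Abund Pool.Agent.Helper92.Orb
  Pool.Agent.Helper10.SP Pool.Agent.Helper95.RK Pool.Agent.Helper57.HS

lemma lim_aux {n : ℕ} {T : Set (Cn n)} (hT : IsOpen T) {E : Type*} [NormedAddCommGroup E]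
    [CompleteSpace E] (g : ℕ → Cn n → E) (hg0 : ∀ x ∈ T, g 0 x = 0)
    (hb : ∀ C ⊆ T, IsCompact C → ∃ K : ℝ, ∀ j, ∀ x ∈ C, ‖g (j + 1) x - g j x‖ ≤ K * (1 / 2) ^ j) :
    TendstoLocallyUniformlyOn g (fun x => ∑' j, (g (j + 1) x - g j x)) atTop T := by
  refine (tendstoLocallyUniformlyOn_iff_forall_isCompact hT).2 fun C hC hCc => ?_
  obtain ⟨K, hK⟩ := hb C hC hCc
  have h1 : Summable fun j : ℕ => K * (1 / 2 : ℝ) ^ j := summable_geometric_two.mul_left K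
  have h2 := tendstoUniformlyOn_tsum_nat h1 hK
  refine h2.congr (Eventually.of_forall fun N x hx => ?_)
  simp only
  rw [Finset.sum_range_sub (fun j => g j x) N, hg0 x (hC hx), sub_zero]

lemma tsum_bd {E : Type*} [NormedAddCommGroup E] [CompleteSpace E] {f : ℕ → E} {K : ℝ}
    (h : ∀ j, ‖f j‖ ≤ K * (1 / 2) ^ j) : ‖∑' j, f j‖ ≤ K * 2 :=
  tsum_of_norm_bounded (hasSum_geometric_two.mul_left K) h

lemma summ {E : Type*} [NormedAddCommGroup E] [CompleteSpace E] {f : ℕ → E} {K : ℝ}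
    (h : ∀ j, ‖f j‖ ≤ K * (1 / 2) ^ j) : Summable f :=
  Summable.of_norm_bounded (summable_geometric_two.mul_left K) h

theorem limc : S_LIMC := by
  intro n T a hT ha v hv hv0 hb
  have hv00 : v 0 = fun _ => (0 : ℝ) := funext hv0
  have hd1 : ∀ j, ContDiffOn ℝ ∞ (fderiv ℝ (v j)) T := fun j =>
    (hv j).fderiv_of_isOpen hT (by simp)
  have hd3 : ∀ j, ContDiffOn ℝ ∞ (D2 (v j)) T := fun j =>
    (hd1 j).fderiv_of_isOpen hT (by simp)
  have hd : ∀ j, ∀ x ∈ T, DifferentiableAt ℝ (v j) x := fun j x hx =>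
    ((hv j).contDiffAt (hT.mem_nhds hx)).differentiableAt (by simp)
  have hd2 : ∀ j, ∀ x ∈ T, DifferentiableAt ℝ (fderiv ℝ (v j)) x := fun j x hx =>
    ((hd1 j).contDiffAt (hT.mem_nhds hx)).differentiableAt (by simp)
  have hf1 : ∀ j, ∀ x ∈ T, fderiv ℝ (fun x => v (j + 1) x - v j x) x =
      fderiv ℝ (v (j + 1)) x - fderiv ℝ (v j) x := fun j x hx =>
    fderiv_fun_sub (hd _ x hx) (hd _ x hx)
  have hf2 : ∀ j, ∀ x ∈ T, D2 (fun x => v (j + 1) x - v j x) x =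
      D2 (v (j + 1)) x - D2 (v j) x := by
    intro j x hx
    unfold D2
    have h1 : fderiv ℝ (fun x => v (j + 1) x - v j x) =ᶠ[𝓝 x]
        fun y => fderiv ℝ (v (j + 1)) y - fderiv ℝ (v j) y := by
      filter_upwards [hT.mem_nhds hx] with y hy using hf1 j y hy
    rw [h1.fderiv_eq]
    exact fderiv_fun_sub (hd2 _ x hx) (hd2 _ x hx)
  have h00 : fderiv ℝ (v 0) = fun _ => 0 := by
    rw [hv00]; funext x; exact fderiv_const_apply _
  have h000 : D2 (v 0) = fun _ => 0 := by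
    unfold D2
    rw [h00]; funext x; exact fderiv_const_apply _
  set w : Cn n → ℝ := fun x => ∑' j, (v (j + 1) x - v j x) with hw
  set w1 : Cn n → (Cn n →L[ℝ] ℝ) := fun x => ∑' j, (fderiv ℝ (v (j + 1)) x - fderiv ℝ (v j) x)
    with hw1
  set w2 : Cn n → (Cn n →L[ℝ] Cn n →L[ℝ] ℝ) := fun x => ∑' j, (D2 (v (j + 1)) x - D2 (v j) x)
    with hw2
  have L0 : TendstoLocallyUniformlyOn v w atTop T := by
    refine lim_aux hT v (fun x _ => hv0 x) fun C hC hCc => ?_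
    obtain ⟨K, hK⟩ := hb C hC hCc
    exact ⟨K, fun j x hx => ((hK j).1 x hx).1⟩
  have L1 : TendstoLocallyUniformlyOn (fun j => fderiv ℝ (v j)) w1 atTop T := by
    refine lim_aux hT (fun j => fderiv ℝ (v j)) (fun x _ => by rw [h00]) fun C hC hCc => ?_
    obtain ⟨K, hK⟩ := hb C hC hCc
    refine ⟨K, fun j x hx => ?_⟩
    have := ((hK j).1 x hx).2
    rwa [hf1 j x (hC hx)] at this
  have L2 : TendstoLocallyUniformlyOn (fun j => D2 (v j)) w2 atTop T := by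
    refine lim_aux hT (fun j => D2 (v j)) (fun x _ => by rw [h000]) fun C hC hCc => ?_
    obtain ⟨K, hK⟩ := hb C hC hCc
    refine ⟨K, fun j x hx => ?_⟩
    have := (hK j).2.1 x hx
    rwa [hf2 j x (hC hx)] at this
  have T0 : ∀ x ∈ T, Tendsto (fun j => v j x) atTop (𝓝 (w x)) := fun x hx => L0.tendsto_at hx
  have T1 : ∀ x ∈ T, Tendsto (fun j => fderiv ℝ (v j) x) atTop (𝓝 (w1 x)) := fun x hx =>
    L1.tendsto_at hx
  have T2 : ∀ x ∈ T, Tendsto (fun j => D2 (v j) x) atTop (𝓝 (w2 x)) := fun x hx =>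
    L2.tendsto_at hx
  have F1 : ∀ x ∈ T, HasFDerivAt w (w1 x) x := fun x hx =>
    hasFDerivAt_of_tendstoLocallyUniformlyOn hT L1 (fun j y hy => (hd j y hy).hasFDerivAt) T0 hx
  have F2 : ∀ x ∈ T, HasFDerivAt w1 (w2 x) x := fun x hx =>
    hasFDerivAt_of_tendstoLocallyUniformlyOn hT L2 (fun j y hy => (hd2 j y hy).hasFDerivAt) T1 hx
  have E1 : ∀ x ∈ T, fderiv ℝ w x = w1 x := fun x hx => (F1 x hx).fderiv
  have E2 : ∀ x ∈ T, HasFDerivAt (fderiv ℝ w) (w2 x) x := fun x hx => by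
    refine (F2 x hx).congr_of_eventuallyEq ?_
    filter_upwards [hT.mem_nhds hx] with y hy using E1 y hy
  have E3 : ∀ x ∈ T, D2 w x = w2 x := fun x hx => (E2 x hx).fderiv
  have C2 : ContinuousOn w2 T :=
    L2.continuousOn (Frequently.of_forall fun j => (hd3 j).continuousOn)
  refine ⟨w, ?_, fun x hx => ⟨T0 x hx, by rw [E3 x hx]; exact T2 x hx⟩, ?_⟩
  · have h2 : (2 : WithTop ℕ∞) = 1 + 1 := by norm_num
    have h1 : (1 : WithTop ℕ∞) = 0 + 1 := by norm_num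
    rw [h2, contDiffOn_succ_iff_fderiv_of_isOpen hT]
    refine ⟨fun x hx => (F1 x hx).differentiableAt.differentiableWithinAt, by simp, ?_⟩
    rw [h1, contDiffOn_succ_iff_fderiv_of_isOpen hT]
    refine ⟨fun x hx => (E2 x hx).differentiableAt.differentiableWithinAt, by simp, ?_⟩
    rw [contDiffOn_zero]
    exact C2.congr fun x hx => E3 x hx
  · intro C hC hCc
    obtain ⟨K, hK⟩ := hb C hC hCc
    have k0 : ∀ z ∈ C, ∀ j, ‖v (j + 1) z - v j z‖ ≤ K * (1 / 2) ^ j := fun z hz j =>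
      ((hK j).1 z hz).1
    have k1 : ∀ z ∈ C, ∀ j, ‖fderiv ℝ (v (j + 1)) z - fderiv ℝ (v j) z‖ ≤ K * (1 / 2) ^ j := by
      intro z hz j
      have := ((hK j).1 z hz).2
      rwa [hf1 j z (hC hz)] at this
    have k2 : ∀ z ∈ C, ∀ j, ‖D2 (v (j + 1)) z - D2 (v j) z‖ ≤ K * (1 / 2) ^ j := by
      intro z hz j
      have := (hK j).2.1 z hz
      rwa [hf2 j z (hC hz)] at this
    have k3 : ∀ z ∈ C, ∀ y ∈ C, ∀ j, ‖(D2 (v (j + 1)) z - D2 (v j) z) -
        (D2 (v (j + 1)) y - D2 (v j) y)‖ ≤ K * ‖z - y‖ ^ a * (1 / 2) ^ j := by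
      intro z hz y hy j
      have := (hK j).2.2 z hz y hy
      rw [hf2 j z (hC hz), hf2 j y (hC hy)] at this
      calc _ ≤ K * (1 / 2) ^ j * ‖z - y‖ ^ a := this
        _ = K * ‖z - y‖ ^ a * (1 / 2) ^ j := by ring
    have b0 : ∀ z ∈ C, ‖w z‖ ≤ K * 2 := fun z hz => tsum_bd (k0 z hz)
    have b1 : ∀ z ∈ C, ‖w1 z‖ ≤ K * 2 := fun z hz => tsum_bd (k1 z hz)
    have b2 : ∀ z ∈ C, ‖w2 z‖ ≤ K * 2 := fun z hz =>
      tsum_bd (E := Cn n →L[ℝ] Cn n →L[ℝ] ℝ) (f := fun j => D2 (v (j + 1)) z - D2 (v j) z)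
        (k2 z hz)
    have b3 : ∀ z ∈ C, ∀ y ∈ C, ‖w2 z - w2 y‖ ≤ K * 2 * ‖z - y‖ ^ a := by
      intro z hz y hy
      have e1 : w2 z - w2 y = ∑' j, ((D2 (v (j + 1)) z - D2 (v j) z) -
          (D2 (v (j + 1)) y - D2 (v j) y)) := by
        have s1 := (summ (E := Cn n →L[ℝ] Cn n →L[ℝ] ℝ)
          (f := fun j => D2 (v (j + 1)) z - D2 (v j) z) (k2 z hz)).tsum_sub
          (summ (E := Cn n →L[ℝ] Cn n →L[ℝ] ℝ)
          (f := fun j => D2 (v (j + 1)) y - D2 (v j) y) (k2 y hy))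
        rw [s1]
      have e2 : K * 2 * ‖z - y‖ ^ a = K * ‖z - y‖ ^ a * 2 := by ring
      rw [e1, e2]
      exact tsum_bd (E := Cn n →L[ℝ] Cn n →L[ℝ] ℝ)
        (f := fun j => (D2 (v (j + 1)) z - D2 (v j) z) - (D2 (v (j + 1)) y - D2 (v j) y))
        (k3 z hz y hy)
    refine ⟨K * 2, ⟨fun x hx => ⟨b0 x hx, ?_⟩, fun x hx => ?_, fun x hx y hy => ?_⟩⟩
    · have := b1 x hx
      rwa [← E1 x (hC hx)] at this
    · have := b2 x hx
      rwa [← E3 x (hC hx)] at this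
    · have := b3 x hx y hy
      rwa [← E3 x (hC hx), ← E3 y (hC hy)] at this

end Pool.Agent.Helper38.HS.LIMC
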