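import Pool.Agent.Helper95.HS.GoalsB
import Pool.Agent.Helper15.HS.GoalsC

/-! # HS RHOB: the Ricci form is bounded, from goals of `Helper15` -/

open scoped ComplexOrder

namespace Pool.Agent.Helper38.HS

open Pool.Agent.Helper15.HS Pool.Agent.Helper57.HS

universe u

theorem rhob (h1 : Pool.Agent.Helper15.HS.S_RHOI.{u}) (h2 : Pool.Agent.Helper15.HS.S_RHB.{u}) :
    Pool.Agent.Helper95.HS.S_RHOB.{u} := by
  intro n T G _ R H hK
  have hHer : HerT T R H := ⟨hK.posDef, hK.smooth, hK.inv⟩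
  obtain ⟨hR1, hR2, -, -, -⟩ := h1 T R H hK.et hHer
  obtain ⟨K, hK0, hKb⟩ := h2 T R H hK.et hHer (rho H) hR1.herm
    (fun i j => (hR1.smooth i j).continuousOn) hR2
  exact ⟨hR2, K, hK0, fun x hx => ⟨(hKb x hx).2, (hKb x hx).1⟩⟩

end Pool.Agent.Helper38.HS
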