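import Pool.Agent.Helper95.HS.GoalsB
import Pool.Agent.Helper15.HS.GoalsC

/-! # HS SGN: Royden's lemma, from the goal of `Helper15` -/

namespace Pool.Agent.Helper38.HS

theorem sgn (h : Pool.Agent.Helper15.HS.S_SGN) : Pool.Agent.Helper95.HS.S_SGN :=
  fun W hW H hC hP hN => (h W hW H hP hC hN).2

end Pool.Agent.Helper38.HS
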