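import Pool.Agent.Helper15.HS.GoalsC

/-! # HS-C QPD: the logarithms of the densities are uniformly quasi-plurisubharmonic -/

open Complex Metric Set Filter Topology MeasureTheory
open scoped ContDiff ComplexConjugate ComplexOrder Manifold Matrix MatrixOrder

namespace Pool.Agent.Helper38.HS.QPD

open Pool.Agent.Helper95.Lin Pool.Agent.Helper16.Abund Pool.Agent.Helper92.Orb
  Pool.Agent.Helper10.SP Pool.Agent.Helper95.RK Pool.Agent.Helper57.HS Pool.Agent.Helper15.HS

universe u

lemma trace_mul_nonneg' {n : ℕ} {A K : Matrix (Fin n) (Fin n) ℂ} (hA : A.PosSemidef)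
    (hK : K.PosSemidef) : 0 ≤ (Matrix.trace (A * K)).re := by
  obtain ⟨B, hB⟩ := CStarAlgebra.nonneg_iff_eq_star_mul_self.mp hA.nonneg
  rw [Matrix.star_eq_conjTranspose] at hB
  have h1 : Matrix.trace (A * K) = Matrix.trace (B * K * Bᴴ) := by
    rw [hB, Matrix.mul_assoc, Matrix.trace_mul_comm]
  rw [h1]
  exact (Complex.nonneg_iff.1 (hK.mul_mul_conjTranspose_same B).trace_nonneg).1

lemma hermi_eq_dot {k : ℕ} (M : Matrix (Fin k) (Fin k) ℂ) (c : Cn k) :
    hermi M c c = star (fun i => conj (c i)) ⬝ᵥ (M *ᵥ fun i => conj (c i)) := by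
  unfold hermi
  simp only [dotProduct, Matrix.mulVec, Pi.star_apply]
  refine Finset.sum_congr rfl fun i _ => ?_
  rw [Finset.mul_sum]
  refine Finset.sum_congr rfl fun j _ => ?_
  have : star (conj (c i)) = c i := Complex.conj_conj _
  rw [this]; ring

lemma hermi_re_nonneg {n : ℕ} {A : Matrix (Fin n) (Fin n) ℂ} (hA : A.PosSemidef) (e : Cn n) :
    0 ≤ (hermi A e e).re := by
  rw [hermi_eq_dot]
  exact (Complex.nonneg_iff.1 (hA.dotProduct_mulVec_nonneg _)).1

lemma hermi_add_smul {n : ℕ} (A H : Matrix (Fin n) (Fin n) ℂ) (K : ℝ) (e : Cn n) :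
    (hermi (A + (K : ℂ) • H) e e).re = (hermi A e e).re + K * (hermi H e e).re := by
  have h : hermi (A + (K : ℂ) • H) e e = hermi A e e + (K : ℂ) * hermi H e e := by
    unfold hermi
    simp only [Matrix.add_apply, Matrix.smul_apply, smul_eq_mul, Finset.mul_sum,
      ← Finset.sum_add_distrib]
    refine Finset.sum_congr rfl fun i _ => Finset.sum_congr rfl fun j _ => ?_
    ring
  rw [h, Complex.add_re, Complex.re_ofReal_mul]

lemma hermi_norm_le {n : ℕ} (H : Matrix (Fin n) (Fin n) ℂ) (e : Cn n) :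
    ‖hermi H e e‖ ≤ (∑ i, ∑ j, ‖H i j‖) * ‖e‖ ^ 2 := by
  unfold hermi
  rw [Finset.sum_mul]
  refine (norm_sum_le _ _).trans (Finset.sum_le_sum fun i _ => ?_)
  rw [Finset.sum_mul]
  refine (norm_sum_le _ _).trans (Finset.sum_le_sum fun j _ => ?_)
  rw [norm_mul, norm_mul, RCLike.norm_conj]
  have h1 : ‖e i‖ ≤ ‖e‖ := norm_le_pi_norm e i
  have h2 : ‖e j‖ ≤ ‖e‖ := norm_le_pi_norm e j
  have h3 : ‖e i‖ * ‖e j‖ ≤ ‖e‖ ^ 2 := by
    rw [pow_two]; exact mul_le_mul h1 h2 (norm_nonneg _) (norm_nonneg _)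
  calc ‖H i j‖ * ‖e i‖ * ‖e j‖ = ‖H i j‖ * (‖e i‖ * ‖e j‖) := by ring
    _ ≤ ‖H i j‖ * ‖e‖ ^ 2 := mul_le_mul_of_nonneg_left h3 (norm_nonneg _)

lemma cdb_congr {n : ℕ} {T : Set (Cn n)} (hT : IsOpen T) {f g : Cn n → ℂ}
    (h : ∀ x ∈ T, f x = g x) (k : Fin n) {x : Cn n} (hx : x ∈ T) : cdb k f x = cdb k g x := by
  have h1 : f =ᶠ[𝓝 x] g := by
    filter_upwards [hT.mem_nhds hx] with y hy using h y hy
  unfold cdb
  rw [h1.fderiv_eq]

lemma cd_congr {n : ℕ} {T : Set (Cn n)} (hT : IsOpen T) {f g : Cn n → ℂ}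
    (h : ∀ x ∈ T, f x = g x) (k : Fin n) {x : Cn n} (hx : x ∈ T) : cd k f x = cd k g x := by
  have h1 : f =ᶠ[𝓝 x] g := by
    filter_upwards [hT.mem_nhds hx] with y hy using h y hy
  unfold cd
  rw [h1.fderiv_eq]

lemma LM_congr {n : ℕ} {T : Set (Cn n)} (hT : IsOpen T) {f g : Cn n → ℝ}
    (h : ∀ x ∈ T, f x = g x) {x : Cn n} (hx : x ∈ T) : LM f x = LM g x := by
  ext j k
  simp only [LM, Matrix.of_apply]
  refine cd_congr hT (fun y hy => ?_) j hx
  exact cdb_congr hT (fun z hz => by rw [h z hz]) k hy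

lemma LM_sub_const {n : ℕ} (f : Cn n → ℝ) (c : ℝ) (x : Cn n) :
    LM (fun y => f y - c) x = LM f x := by
  ext j k
  simp only [LM, Matrix.of_apply]
  have h1 : (fun y => (((f y - c : ℝ)) : ℂ)) = fun y => (f y : ℂ) - (c : ℂ) := by
    funext y; push_cast; rfl
  have h2 : cdb k (fun y => (((f y - c : ℝ)) : ℂ)) = cdb k (fun y => (f y : ℂ)) := by
    funext y
    unfold cdb
    rw [h1, fderiv_sub_const]
  rw [h2]

lemma cont_trace_mul {n : ℕ} {T : Set (Cn n)} {A B : Cn n → Matrix (Fin n) (Fin n) ℂ}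
    (hA : ∀ i j, ContinuousOn (fun x => A x i j) T)
    (hB : ∀ i j, ContinuousOn (fun x => B x i j) T) :
    ContinuousOn (fun x => (Matrix.trace (A x * B x)).re) T := by
  simp only [Matrix.trace, Matrix.diag, Matrix.mul_apply]
  exact Complex.continuous_re.comp_continuousOn (continuousOn_finsetSum _ fun i _ =>
    continuousOn_finsetSum _ fun j _ => (hA i j).mul (hB j i))

lemma kint {n : ℕ} {T : Set (Cn n)} (hT : IsOpen T) {κ : Cn n → ℝ} (hκ : TestF T κ)
    {g : Cn n → ℝ} (hg : ContinuousOn g T) : IntegrableOn (fun x => κ x * g x) T := by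
  have h1 : IntegrableOn (fun x => κ x * g x) (tsupport κ) := by
    refine ContinuousOn.integrableOn_compact hκ.2.1 ?_
    exact hκ.1.continuous.continuousOn.mul (hg.mono hκ.2.2)
  refine h1.of_forall_sdiff_eq_zero hT.measurableSet fun x hx => ?_
  rw [image_eq_zero_of_notMem_tsupport hx.2, zero_mul]

theorem qpd (hRHOI : S_RHOI.{u}) (hLMF : S_LMF) (hVOLP : S_VOLP.{u}) (hRHB : S_RHB.{u})
    (hSUBM : S_SUBM) (hLOCB : S_LOCB.{u}) (hDETI : S_DETI.{u}) (hLMID : S_LMID.{u})
    (hIFN : S_IFN.{u}) : S_QPD.{u} := by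
  intro n T G _ R H hK κ hκ hex k p hp hV
  have hET := hK.et
  have hTo := hET.isOpen
  have hHer : HerT T R H := ⟨hK.posDef, hK.smooth, hK.inv⟩
  obtain ⟨hD1, hD2, hD3, -, -, -⟩ := hDETI T R H hK
  obtain ⟨hR1, hR2, hR3, -, hR5⟩ := hRHOI T R H hET hHer
  obtain ⟨hV1, -⟩ := hVOLP T R H hK κ hκ hex
  obtain ⟨K1, hK1, hRB⟩ := hRHB T R H hET hHer (rho H) hR1.herm
    (fun i j => (hR1.smooth i j).continuousOn) hR2
  have hdetc : ContinuousOn (fun x => (H x).det.re) T := hD2.continuousOn
  -- the volume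
  have hVol : ∀ (ε : ℝ) (Q : Cn n → Matrix (Fin n) (Fin n) ℂ), 0 < ε → TKE T R H ε Q →
      ∫ x in T, κ x * (Q x).det.re = ε ^ k * p.eval ε := by
    intro ε Q hε hQ
    have h := hV1 ε Q hε hQ 0 le_rfl
    simp only [Complex.ofReal_zero, zero_smul, add_zero] at h
    rw [h, hV]
  -- positivity of p on (0, 1]
  have hppos : ∀ ε : ℝ, 0 < ε → 0 < p.eval ε := by
    intro ε hε
    obtain ⟨Q, hQ⟩ := hex ε hε
    obtain ⟨x0, hx0⟩ := hET.nonempty
    obtain ⟨r, hr, hrT⟩ := Metric.isOpen_iff.1 hTo x0 hx0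
    have hcb : closedBall x0 (r / 2) ⊆ T :=
      (closedBall_subset_ball (by linarith)).trans hrT
    obtain ⟨B, hB, hBf⟩ := hLOCB T R Q hQ.ket κ hκ (closedBall x0 (r / 2)) hcb
      (isCompact_closedBall _ _)
    have h1 := hBf (fun _ => 1) continuousOn_const (fun _ _ => zero_le_one) (fun _ _ _ _ => rfl)
    have h2 : 0 < ∫ _ in closedBall x0 (r / 2), (1 : ℝ) := by
      rw [setIntegral_const, smul_eq_mul, mul_one]
      refine ENNReal.toReal_pos (measure_closedBall_pos _ _ (by linarith)).ne' ?_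
      exact measure_closedBall_lt_top.ne
    have h3 : ∫ x in T, κ x * (Q x).det.re * (1 : ℝ) = ε ^ k * p.eval ε := by
      rw [← hVol ε Q hε hQ]
      simp only [mul_one]
    rw [h3] at h1
    have h4 : 0 < ε ^ k * p.eval ε := by
      by_contra hcon
      have : B * (ε ^ k * p.eval ε) ≤ 0 := mul_nonpos_of_nonneg_of_nonpos hB.le (not_lt.1 hcon)
      linarith
    exact pos_of_mul_pos_right h4 (pow_pos hε k).le
  have hpc : ContinuousOn (fun ε : ℝ => p.eval ε) (Icc 0 1) := p.continuous.continuousOn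
  obtain ⟨e0, he0, hmin⟩ := isCompact_Icc.exists_isMinOn (nonempty_Icc.2 zero_le_one) hpc
  obtain ⟨e1, he1, hmax⟩ := isCompact_Icc.exists_isMaxOn (nonempty_Icc.2 zero_le_one) hpc
  set c : ℝ := p.eval e0 with hc
  set Pm : ℝ := p.eval e1 with hPm
  have hcpos : 0 < c := by
    rcases eq_or_lt_of_le he0.1 with h | h
    · rw [hc, ← h]; exact hp
    · exact hppos e0 h
  have hple : ∀ ε : ℝ, 0 < ε → ε ≤ 1 → c ≤ p.eval ε ∧ p.eval ε ≤ Pm := fun ε h1 h2 =>
    ⟨hmin (show ε ∈ Icc (0 : ℝ) 1 from ⟨h1.le, h2⟩), hmax (show ε ∈ Icc (0 : ℝ) 1 from ⟨h1.le, h2⟩)⟩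
  have hPmpos : 0 < Pm := lt_of_lt_of_le hcpos
    (hmax (show e0 ∈ Icc (0 : ℝ) 1 from he0))
  -- the compact set
  obtain ⟨C0, hC0T, hC0, hcov⟩ := hET.coc
  obtain ⟨δ, hδ, hδT⟩ := hC0.exists_cthickening_subset_open hTo hC0T
  have hC1 : IsCompact (cthickening δ C0) := hC0.cthickening
  have hcball : ∀ x ∈ C0, closedBall x δ ⊆ cthickening δ C0 := fun x hx =>
    closedBall_subset_cthickening hx δ
  obtain ⟨M, hM⟩ := hC1.exists_bound_of_continuousOn (f := fun x => ∑ i, ∑ j, ‖H x i j‖)
    (continuousOn_finsetSum _ fun i _ => continuousOn_finsetSum _ fun j _ =>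
      ((hK.smooth i j).continuousOn.mono hδT).norm)
  have hK2 : 0 ≤ (1 + K1) * max M 0 := mul_nonneg (by linarith) (le_max_right _ _)
  obtain ⟨B1, hB1, hsub⟩ := hSUBM n (δ / 2) ((1 + K1) * max M 0) (by linarith) hK2
  obtain ⟨B2, hB2, hloc⟩ := hLOCB T R H hK κ hκ (cthickening δ C0) hδT hC1
  set A0 : ℝ := ∫ x in T, κ x * (H x).det.re with hA0
  have hA0nn : 0 ≤ A0 := by
    refine setIntegral_nonneg hTo.measurableSet fun x hx => ?_
    exact mul_nonneg (hκ.nonneg x) (hD1 x hx).2.1.le
  -- the potential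
  have key : ∀ (ε : ℝ) (Q : Cn n → Matrix (Fin n) (Fin n) ℂ), 0 < ε → ε ≤ 1 → TKE T R H ε Q →
      (∀ x ∈ T, 0 < dens k ε H Q x) ∧ InvF T R (fun x => Real.log (dens k ε H Q x)) ∧
      (∀ K : ℝ, 1 + K1 ≤ K → ∀ x ∈ T,
        (LM (fun x => Real.log (dens k ε H Q x)) x + (K : ℂ) • H x).PosSemidef) ∧
      ∫ x in T, κ x * (H x).det.re * dens k ε H Q x = p.eval ε := by
    intro ε Q hε hε1 hQ
    obtain ⟨hQ1, hQ2, -, -, -, -⟩ := hDETI T R Q hQ.ket
    have hQHer : HerT T R Q := ⟨hQ.ket.posDef, hQ.ket.smooth, hQ.ket.inv⟩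
    obtain ⟨hI, hrho⟩ := hR5 Q hQHer
    have hεk : 0 < ε ^ k := pow_pos hε k
    have hpos : ∀ x ∈ T, 0 < dens k ε H Q x := fun x hx => by
      unfold dens
      exact div_pos (hQ1 x hx).2.1 (mul_pos hεk (hD1 x hx).2.1)
    have hu : ∀ x ∈ T, Real.log (dens k ε H Q x) = (ld Q x - ld H x) - k * Real.log ε := by
      intro x hx
      unfold dens ld
      rw [Real.log_div (hQ1 x hx).2.1.ne' (mul_pos hεk (hD1 x hx).2.1).ne',
        Real.log_mul hεk.ne' (hD1 x hx).2.1.ne', Real.log_pow]
      ring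
    refine ⟨hpos, ⟨?_, ?_⟩, ?_, ?_⟩
    · refine ContDiffOn.congr (f := fun x => (ld Q x - ld H x) - k * Real.log ε) ?_ hu
      exact hI.1.sub contDiffOn_const
    · intro γ x y hxy
      have hm := hET.mem γ x y hxy
      have h := hI.2 γ x y hxy
      simp only at h ⊢
      rw [hu y hm.2, hu x hm.1, h]
    · intro K hKK x hx
      have h1 : LM (fun x => Real.log (dens k ε H Q x)) x = Q x - (ε : ℂ) • H x - rho H x := by
        rw [LM_congr hTo hu hx, LM_sub_const]
        have h2 := hrho x hx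
        rw [hQ.eq x hx] at h2
        rw [h2]
        abel
      have h3 : LM (fun x => Real.log (dens k ε H Q x)) x + (K : ℂ) • H x =
          Q x + (((K - ε - K1 : ℝ) : ℂ) • H x + ((K1 : ℂ) • H x - rho H x)) := by
        rw [h1]
        push_cast
        rw [sub_smul, sub_smul]
        abel
      rw [h3]
      refine (hQ.ket.posDef x hx).posSemidef.add (Matrix.PosSemidef.add ?_ (hRB x hx).2)
      refine (hK.posDef x hx).posSemidef.smul ?_
      have : (0 : ℝ) ≤ K - ε - K1 := by linarith
      exact_mod_cast this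
    · have h4 : ∫ x in T, κ x * (H x).det.re * dens k ε H Q x =
          ∫ x in T, (ε ^ k)⁻¹ * (κ x * (Q x).det.re) := by
        refine setIntegral_congr_fun hTo.measurableSet fun x hx => ?_
        have h5 := (hD1 x hx).2.1.ne'
        unfold dens
        field_simp
      rw [h4, integral_const_mul, hVol ε Q hε hQ]
      field_simp
  -- the constant
  set K : ℝ := 1 + K1 + B1 * (B2 * Pm) + (A0 + 1) / c with hKdef
  have hterm1 : 0 ≤ B1 * (B2 * Pm) := mul_nonneg hB1.le (mul_nonneg hB2.le hPmpos.le)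
  have hterm2 : 0 < (A0 + 1) / c := div_pos (by linarith) hcpos
  have hKpos : 0 < K := by rw [hKdef]; linarith
  refine ⟨K, hKpos, ?_, ?_⟩
  · intro ε Q hε hε1 hQ
    obtain ⟨hpos, hInv, hqp, hint⟩ := key ε Q hε hε1 hQ
    refine ⟨⟨hInv, hqp K (by rw [hKdef]; linarith), ?_, ?_⟩, hpos⟩
    · -- the upper bound
      have hexp : ∀ x ∈ T, Real.exp (Real.log (dens k ε H Q x)) = dens k ε H Q x := fun x hx =>
        Real.exp_log (hpos x hx)
      have hcont : ContinuousOn (fun x => Real.exp (Real.log (dens k ε H Q x))) T :=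
        Real.continuous_exp.comp_continuousOn hInv.1.continuousOn
      have hC0b : ∀ x ∈ C0, Real.log (dens k ε H Q x) ≤ B1 * (B2 * Pm) := by
        intro x hx
        have hb2 : ball x (2 * (δ / 2)) ⊆ cthickening δ C0 := by
          have : 2 * (δ / 2) = δ := by ring
          rw [this]
          exact ball_subset_closedBall.trans (hcball x hx)
        have h1 := hsub x (fun x => Real.log (dens k ε H Q x))
          (hInv.1.mono (hb2.trans hδT)) (fun y hy e => by
            have hyT : y ∈ T := hδT (hb2 hy)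
            have h2 := hermi_re_nonneg (hqp (1 + K1) le_rfl y hyT) e
            rw [hermi_add_smul] at h2
            have h3 := (hLMF T hTo _ hInv.1).2.2.1 y hyT e
            have h4 : (hermi (LM (fun x => Real.log (dens k ε H Q x)) y) e e).re =
                lev (fun x => Real.log (dens k ε H Q x)) y e := by
              rw [← h3, Complex.ofReal_re]
            rw [h4] at h2
            have h5 : (hermi (H y) e e).re ≤ max M 0 * ‖e‖ ^ 2 := by
              refine (Complex.re_le_norm _).trans ((hermi_norm_le _ _).trans ?_)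
              refine mul_le_mul_of_nonneg_right ?_ (by positivity)
              exact ((le_abs_self _).trans (hM y (hb2 hy))).trans (le_max_left _ _)
            have h6 : (1 + K1) * (hermi (H y) e e).re ≤ (1 + K1) * (max M 0 * ‖e‖ ^ 2) :=
              mul_le_mul_of_nonneg_left h5 (by linarith)
            linarith)
        have h7 : ∫ y in closedBall x (δ / 2), Real.exp (Real.log (dens k ε H Q y)) ≤
            ∫ y in cthickening δ C0, Real.exp (Real.log (dens k ε H Q y)) := by
          refine setIntegral_mono_set ((hcont.mono hδT).integrableOn_compact hC1)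
            (Eventually.of_forall fun y => (Real.exp_pos _).le) ?_
          refine LE.le.eventuallyLE ?_
          exact (closedBall_subset_closedBall (by linarith)).trans (hcball x hx)
        have h8 := hloc (fun y => Real.exp (Real.log (dens k ε H Q y))) hcont
          (fun y _ => (Real.exp_pos _).le) (fun γ y z hyz => by
            have := hInv.2 γ y z hyz
            simp only at this ⊢
            rw [this])
        have h9 : ∫ y in T, κ y * (H y).det.re * Real.exp (Real.log (dens k ε H Q y)) =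
            p.eval ε := by
          rw [← hint]
          refine setIntegral_congr_fun hTo.measurableSet fun y hy => ?_
          show κ y * (H y).det.re * Real.exp (Real.log (dens k ε H Q y)) =
            κ y * (H y).det.re * dens k ε H Q y
          rw [hexp y hy]
        rw [h9] at h8
        have h10 := Real.add_one_le_exp (Real.log (dens k ε H Q x))
        have h11 : B1 * ∫ y in closedBall x (δ / 2), Real.exp (Real.log (dens k ε H Q y)) ≤
            B1 * (B2 * Pm) := by
          refine mul_le_mul_of_nonneg_left ?_ hB1.le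
          exact (h7.trans h8).trans (mul_le_mul_of_nonneg_left (hple ε hε hε1).2 hB2.le)
        linarith
      intro x hx
      obtain ⟨γ, y, hy, hxy⟩ := hcov x hx
      have h := hInv.2 γ x y hxy
      simp only at h
      rw [← h]
      have := hC0b y hy
      rw [hKdef]; linarith
    · -- the lower bound at some point
      by_contra hcon
      push Not at hcon
      have h1 : p.eval ε ≤ Real.exp (-K) * A0 := by
        rw [← hint, hA0, ← integral_const_mul]
        refine integral_mono_of_nonneg ?_ ?_ ?_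
        · refine (ae_restrict_iff' hTo.measurableSet).2 (Eventually.of_forall fun x hx => ?_)
          exact mul_nonneg (mul_nonneg (hκ.nonneg x) (hD1 x hx).2.1.le) (hpos x hx).le
        · exact (kint hTo hκ.test hdetc).const_mul _
        · refine (ae_restrict_iff' hTo.measurableSet).2 (Eventually.of_forall fun x hx => ?_)
          have h2 := hcon x hx
          have h3 : dens k ε H Q x ≤ Real.exp (-K) := by
            rw [← Real.exp_log (hpos x hx)]
            exact (Real.exp_lt_exp.2 h2).le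
          have h4 : 0 ≤ κ x * (H x).det.re := mul_nonneg (hκ.nonneg x) (hD1 x hx).2.1.le
          calc κ x * (H x).det.re * dens k ε H Q x ≤ κ x * (H x).det.re * Real.exp (-K) :=
                mul_le_mul_of_nonneg_left h3 h4
            _ = Real.exp (-K) * (κ x * (H x).det.re) := by ring
      have h5 : Real.exp (-K) * A0 < c := by
        have h6 : K < Real.exp K := by
          have := Real.add_one_le_exp K
          linarith
        have h7 : (A0 + 1) / c < Real.exp K := by
          refine lt_of_le_of_lt ?_ h6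
          rw [hKdef]; linarith
        have h8 : A0 < Real.exp K * c := by
          rw [div_lt_iff₀ hcpos] at h7
          linarith
        rw [Real.exp_neg, inv_mul_lt_iff₀ (Real.exp_pos K)]
        linarith
      have := (hple ε hε hε1).1
      linarith
  · -- traces
    intro C hCT hC
    obtain ⟨B3, hB3, hloc3⟩ := hLOCB T R H hK κ hκ C hCT hC
    have hrc : ContinuousOn (fun x => (Matrix.trace (rho H x * (H x)⁻¹)).re) T :=
      cont_trace_mul (fun i j => (hR1.smooth i j).continuousOn)
        (fun i j => (hD3 i j).continuousOn)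
    refine ⟨B3 * (|∫ x in T, κ x * ((H x).det.re * (Matrix.trace (rho H x * (H x)⁻¹)).re)| +
      n * A0), ?_⟩
    intro ε Q hε hε1 hQ
    have hQHer : HerT T R Q := ⟨hQ.ket.posDef, hQ.ket.smooth, hQ.ket.inv⟩
    obtain ⟨hI, hrho⟩ := hR5 Q hQHer
    have hfc : ContinuousOn (fun x => (Matrix.trace (Q x * (H x)⁻¹)).re) T :=
      cont_trace_mul (fun i j => (hQ.ket.smooth i j).continuousOn)
        (fun i j => (hD3 i j).continuousOn)
    have hDI : DInv R (fun y => ld Q y - ld H y) := by
      intro U τ hτ x hx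
      obtain ⟨hU, -, γ, hγ⟩ := hτ
      refine Filter.EventuallyEq.fderiv_eq ?_
      filter_upwards [hU.mem_nhds hx] with y hy
      exact hI.2 γ y (τ y) (hγ y hy)
    obtain ⟨-, hL2, hL3, -⟩ := hLMID T R H hK κ hκ (fun y => ld Q y - ld H y) hI.1 hDI
    have h1 := hloc3 (fun x => (Matrix.trace (Q x * (H x)⁻¹)).re) hfc
      (fun x hx => trace_mul_nonneg' (hQ.ket.posDef x hx).posSemidef (hD1 x hx).2.2.1.posSemidef)
      (fun γ x y hxy => by
        have := (hIFN T R hET H Q hHer hQ.ket.inv).2 γ x y hxy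
        show (Matrix.trace (Q y * (H y)⁻¹)).re = (Matrix.trace (Q x * (H x)⁻¹)).re
        rw [this.1])
    refine h1.trans (mul_le_mul_of_nonneg_left ?_ hB3.le)
    have h2 : ∀ x ∈ T, κ x * (H x).det.re * (Matrix.trace (Q x * (H x)⁻¹)).re =
        κ x * ((H x).det.re * (Matrix.trace (rho H x * (H x)⁻¹)).re) +
        (κ x * ((H x).det.re * (trL H (fun y => ld Q y - ld H y) x).re) +
        (ε * n) * (κ x * (H x).det.re)) := by
      intro x hx
      have h3 : Q x = rho H x + LM (fun y => ld Q y - ld H y) x + (ε : ℂ) • H x := by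
        have h4 := hrho x hx
        rw [hQ.eq x hx] at h4
        rw [← h4]; abel
      have h5 : (Matrix.trace (Q x * (H x)⁻¹)).re = (Matrix.trace (rho H x * (H x)⁻¹)).re +
          (trL H (fun y => ld Q y - ld H y) x).re + ε * n := by
        have h6 : Matrix.trace (Q x * (H x)⁻¹) = Matrix.trace (rho H x * (H x)⁻¹) +
            trL H (fun y => ld Q y - ld H y) x + (ε : ℂ) * n := by
          conv_lhs => rw [h3]
          rw [Matrix.add_mul, Matrix.add_mul, Matrix.trace_add, Matrix.trace_add,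
            Matrix.smul_mul, (hD1 x hx).2.2.2, Matrix.trace_smul, Matrix.trace_one,
            Fintype.card_fin, Matrix.trace_mul_comm (LM _ x)]
          rfl
        rw [h6]
        simp
      rw [h5]; ring
    rw [setIntegral_congr_fun hTo.measurableSet h2]
    have i1 : IntegrableOn (fun x => κ x * ((H x).det.re *
        (Matrix.trace (rho H x * (H x)⁻¹)).re)) T := kint hTo hκ.test (hdetc.mul hrc)
    have i2 : IntegrableOn (fun x => κ x * ((H x).det.re *
        (trL H (fun y => ld Q y - ld H y) x).re)) T :=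
      kint hTo hκ.test (hdetc.mul hL2.1.continuousOn)
    have i3 : IntegrableOn (fun x => (ε * n) * (κ x * (H x).det.re)) T :=
      (kint hTo hκ.test hdetc).const_mul _
    have i23 : IntegrableOn (fun x => κ x * ((H x).det.re *
        (trL H (fun y => ld Q y - ld H y) x).re) + (ε * n) * (κ x * (H x).det.re)) T := i2.add i3
    rw [integral_add i1 i23, integral_add i2 i3, integral_const_mul, ← hA0]
    have h7 : ∫ x in T, κ x * ((H x).det.re * (trL H (fun y => ld Q y - ld H y) x).re) = 0 := by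
      rw [← hL3]
      refine setIntegral_congr_fun hTo.measurableSet fun x _ => ?_
      show κ x * ((H x).det.re * (trL H (fun y => ld Q y - ld H y) x).re) =
        κ x * (H x).det.re * (trL H (fun y => ld Q y - ld H y) x).re
      ring
    rw [h7, zero_add]
    have h8 : ε * n * A0 ≤ n * A0 := by
      refine mul_le_mul_of_nonneg_right ?_ hA0nn
      have : (0 : ℝ) ≤ n := Nat.cast_nonneg n
      nlinarith
    have h9 := le_abs_self (∫ x in T, κ x * ((H x).det.re *
      (Matrix.trace (rho H x * (H x)⁻¹)).re))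
    linarith

end Pool.Agent.Helper38.HS.QPD
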